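import Pool.Agent.Run7.h538.TP.Stm

/-!
# Piece PAT of project TP: the pattern of `B`
-/

set_option autoImplicit false

open Finset Matrix

namespace Run7.h220.TP

open Run7.h538.TP

section entries

variable {K n : ℕ} (a0 : ℝ) (D r : Fin K → ℝ) (f : Fin K → Fin K → ℝ)
    (ν s : Fin n → ℝ) (g : Fin n → Fin n → ℝ)

theorem e00 : Bm a0 D r f ν s g (.inl 0) (.inl 0) = a0 := rfl

theorem e0s (j : Fin K) : Bm a0 D r f ν s g (.inl 0) (.inl j.succ) = ∑ l, r l * f j l := rfl

theorem es0 (j : Fin K) : Bm a0 D r f ν s g (.inl j.succ) (.inl 0) = ∑ l, r l * f j l := rfl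

theorem ess (i j : Fin K) : Bm a0 D r f ν s g (.inl i.succ) (.inl j.succ) =
    ∑ l, f i l * D l * f j l := rfl

theorem e0r (k : Fin n) : Bm a0 D r f ν s g (.inl 0) (.inr k) = ∑ l, s l * g k l := rfl

theorem er0 (k : Fin n) : Bm a0 D r f ν s g (.inr k) (.inl 0) = ∑ l, s l * g k l := rfl

theorem esr (i : Fin K) (k : Fin n) : Bm a0 D r f ν s g (.inl i.succ) (.inr k) = 0 := rfl

theorem ers (i : Fin K) (k : Fin n) : Bm a0 D r f ν s g (.inr k) (.inl i.succ) = 0 := rfl

theorem err (k k' : Fin n) : Bm a0 D r f ν s g (.inr k) (.inr k') = ∑ l, g k l * ν l * g k' l := rfl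

theorem Bm_symm : (Bm a0 D r f ν s g).IsSymm := by
  ext u v
  rw [Matrix.transpose_apply]
  rcases u with i | k <;> rcases v with j | k'
  · refine Fin.cases ?_ (fun i' => ?_) i <;> refine Fin.cases ?_ (fun j' => ?_) j
    · rfl
    · rw [e0s, es0]
    · rw [e0s, es0]
    · rw [ess, ess]
      exact Finset.sum_congr rfl fun l _ => by ring
  · refine Fin.cases ?_ (fun i' => ?_) i
    · rw [e0r, er0]
    · rw [esr, ers]
  · refine Fin.cases ?_ (fun j' => ?_) j
    · rw [e0r, er0]
    · rw [esr, ers]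
  · rw [err, err]
    exact Finset.sum_congr rfl fun l _ => by ring

end entries

theorem t_PAT : S_PAT := by
  intro K n a0 β a c b D x z r f ν s g hK hβ ha hc hb hf hg hx hz hs hr
  have hα : ∀ i : Fin K, (∑ l, r l * f i l ≠ 0) ↔ (i.val = 0 ∨ i.val + 1 = K) := by
    intro i
    have h0K : 0 < K := by omega
    set i0 : Fin K := ⟨0, h0K⟩ with hi0
    set iL : Fin K := ⟨K - 1, by omega⟩ with hiL
    have h1 : ∑ l, r l * f i l =
        a * (if i0 = i then 1 else 0) + β * c * (if iL = i then 1 else 0) := by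
      rw [← hf.orth i0 i, ← hf.orth iL i, Finset.mul_sum, Finset.mul_sum,
        ← Finset.sum_add_distrib]
      refine Finset.sum_congr rfl fun l _ => ?_
      rw [hr, hx i0 rfl, hz iL (by show K - 1 + 1 = K; omega)]
      ring
    rw [h1]
    by_cases h0 : i.val = 0
    · have e0 : i0 = i := Fin.ext h0.symm
      have eL : iL ≠ i := by
        intro h
        have h2 : K - 1 = i.val := congrArg Fin.val h
        omega
      rw [if_pos e0, if_neg eL]
      simp [h0, ha]
    · have e0 : i0 ≠ i := by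
        intro h
        have h2 : 0 = i.val := congrArg Fin.val h
        omega
      by_cases hL : i.val + 1 = K
      · have eL : iL = i := Fin.ext (by show K - 1 = i.val; omega)
        rw [if_neg e0, if_pos eL]
        simp [hL, hβ, hc]
      · have eL : iL ≠ i := by
          intro h
          have h2 : K - 1 = i.val := congrArg Fin.val h
          omega
        rw [if_neg e0, if_neg eL]
        simp [h0, hL]
  have hσ : ∀ k : Fin n, (∑ l, s l * g k l ≠ 0) ↔ k.val = 0 := by
    intro k
    have h0n : 0 < n := lt_of_le_of_lt (Nat.zero_le _) k.isLt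
    set k0 : Fin n := ⟨0, h0n⟩ with hk0
    have h1 : ∑ l, s l * g k l = b * (if k0 = k then 1 else 0) := by
      rw [← hg.orth k0 k, Finset.mul_sum]
      refine Finset.sum_congr rfl fun l _ => ?_
      rw [hs k0 rfl]
      ring
    rw [h1]
    by_cases h0 : k.val = 0
    · have e0 : k0 = k := Fin.ext h0.symm
      rw [if_pos e0]
      simp [h0, hb]
    · have e0 : k0 ≠ k := by
        intro h
        have h2 : 0 = k.val := congrArg Fin.val h
        omega
      rw [if_neg e0]
      simp [h0]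
  refine ⟨Bm_symm a0 D r f ν s g, ?_⟩
  have mod1 : ∀ i j : Fin K, ((i.val + 1 + 1) % (K + 1) = j.val + 1) ↔ i.val + 1 = j.val := by
    intro i j
    have hi := i.isLt
    have hj := j.isLt
    rcases Nat.lt_or_ge (i.val + 1 + 1) (K + 1) with h | h
    · rw [Nat.mod_eq_of_lt h]
      omega
    · have h2 : i.val + 1 + 1 = K + 1 := by omega
      rw [h2, Nat.mod_self]
      omega
  have mod2 : ∀ i : Fin K, ((i.val + 1 + 1) % (K + 1) = 0) ↔ i.val + 1 = K := by
    intro i
    have hi := i.isLt
    rcases Nat.lt_or_ge (i.val + 1 + 1) (K + 1) with h | h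
    · rw [Nat.mod_eq_of_lt h]
      omega
    · have h2 : i.val + 1 + 1 = K + 1 := by omega
      rw [h2, Nat.mod_self]
      omega
  have mod3 : ∀ j : Fin K, ((0 + 1) % (K + 1) = j.val + 1) ↔ j.val = 0 := by
    intro j
    rw [Nat.mod_eq_of_lt (by omega)]
    omega
  intro u v huv
  unfold tadpole
  rw [SimpleGraph.fromRel_adj]
  rcases u with i | k <;> rcases v with j | k'
  · revert huv
    refine Fin.cases ?_ (fun i' => ?_) i <;> refine Fin.cases ?_ (fun j' => ?_) j
    · intro huv
      exact absurd rfl huv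
    · intro huv
      rw [e0s, hα]
      show _ ↔ _ ∧ ((0 + 1) % (K + 1) = j'.val + 1 ∨ (j'.val + 1 + 1) % (K + 1) = 0)
      rw [mod3, mod2]
      exact ⟨fun h => ⟨huv, h⟩, fun h => h.2⟩
    · intro huv
      rw [es0, hα]
      show _ ↔ _ ∧ ((i'.val + 1 + 1) % (K + 1) = 0 ∨ (0 + 1) % (K + 1) = i'.val + 1)
      rw [mod3, mod2]
      exact ⟨fun h => ⟨huv, h.symm⟩, fun h => h.2.symm⟩
    · intro huv
      have hne : i' ≠ j' := by
        intro h
        exact huv (by rw [h])
      rw [ess, hf.tri i' j' hne]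
      show _ ↔ _ ∧ ((i'.val + 1 + 1) % (K + 1) = j'.val + 1 ∨
        (j'.val + 1 + 1) % (K + 1) = i'.val + 1)
      rw [mod1, mod1]
      exact ⟨fun h => ⟨huv, h⟩, fun h => h.2⟩
  · revert huv
    refine Fin.cases ?_ (fun i' => ?_) i
    · intro huv
      rw [e0r, hσ]
      show _ ↔ _ ∧ ((0 = 0 ∧ k'.val = 0) ∨ False)
      exact ⟨fun h => ⟨huv, Or.inl ⟨rfl, h⟩⟩, fun h => (h.2.resolve_right id).2⟩
    · intro huv
      rw [esr]
      show _ ↔ _ ∧ ((i'.val + 1 = 0 ∧ k'.val = 0) ∨ False)
      constructor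
      · intro h
        exact absurd rfl h
      · intro h
        have := (h.2.resolve_right id).1
        omega
  · revert huv
    refine Fin.cases ?_ (fun j' => ?_) j
    · intro huv
      rw [er0, hσ]
      show _ ↔ _ ∧ (False ∨ (0 = 0 ∧ k.val = 0))
      exact ⟨fun h => ⟨huv, Or.inr ⟨rfl, h⟩⟩, fun h => (h.2.resolve_left id).2⟩
    · intro huv
      rw [ers]
      show _ ↔ _ ∧ (False ∨ (j'.val + 1 = 0 ∧ k.val = 0))
      constructor
      · intro h
        exact absurd rfl h
      · intro h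
        have := (h.2.resolve_left id).1
        omega
  · have hne : k ≠ k' := by
      intro h
      exact huv (by rw [h])
    rw [err, hg.tri k k' hne]
    show _ ↔ _ ∧ (k.val + 1 = k'.val ∨ k'.val + 1 = k.val)
    exact ⟨fun h => ⟨huv, h⟩, fun h => h.2⟩

end Run7.h220.TP
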